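import Mathlib

/-! A continuous refinable function whose symbol has no symmetric zeros and whose Zak transform
vanishes on a whole line. -/

namespace Pool.Agent.Results.MP_057a77_an.StretchedHat

open Complex

/-- The Zak transform. -/
noncomputable def zak (f : ℝ → ℂ) (t ξ : ℝ) : ℂ :=
  ∑' k : ℤ, f (t + k) * cexp (2 * Real.pi * I * k * ξ)

/-- The symbol of a finitely supported mask. -/
noncomputable def symbol (d : ℤ →₀ ℂ) (ξ : ℝ) : ℂ :=
  d.sum fun k c => c * cexp (2 * Real.pi * I * k * ξ)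

noncomputable def hat (t : ℝ) : ℝ := max 0 (3 - |t|)

noncomputable def d0 : ℤ →₀ ℂ :=
  Finsupp.single (-3) (1 / 2) + Finsupp.single 0 1 + Finsupp.single 3 (1 / 2)

lemma d0_sum (g : ℤ → ℂ) : (d0.sum fun k c => c * g k) = 1 / 2 * g (-3) + g 0 + 1 / 2 * g 3 := by
  unfold d0
  rw [Finsupp.sum_add_index' (by simp) (fun _ _ _ => add_mul _ _ _),
    Finsupp.sum_add_index' (by simp) (fun _ _ _ => add_mul _ _ _)]
  simp

lemma hat_dil (t : ℝ) : hat (t / 2) = 1 / 2 * hat (t + 3) + hat t + 1 / 2 * hat (t - 3) := by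
  unfold hat
  simp only [max_def, abs]
  split_ifs <;> linarith

lemma hat_zero {t : ℝ} (h : 3 ≤ |t|) : hat t = 0 := max_eq_left (by linarith)

lemma hat_pair {s : ℝ} (h0 : 0 ≤ s) (h1 : s ≤ 3) : hat (s - 3) + hat s = 3 := by
  unfold hat
  rw [abs_of_nonneg h0, abs_of_nonpos (by linarith), max_eq_right (by linarith),
    max_eq_right (by linarith)]
  ring

theorem result : ∃ (φ : ℝ → ℂ) (d : ℤ →₀ ℂ), φ ≠ 0 ∧ Continuous φ ∧ HasCompactSupport φ ∧
    (∀ t : ℝ, φ (t / 2) = d.sum fun k c => c * φ (t - k)) ∧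
    (¬ ∃ ξ : ℝ, symbol d ξ = 0 ∧ symbol d (ξ + 1 / 2) = 0) ∧
    ∀ t : ℝ, ∃ ξ : ℝ, zak φ t ξ = 0 := by
  refine ⟨fun t => hat t, d0, fun h => ?_, ?_, ?_, fun t => ?_, ?_, fun t => ⟨1 / 3, ?_⟩⟩
  · simpa [hat] using congrFun h 0
  · unfold hat; fun_prop
  · refine HasCompactSupport.intro (isCompact_Icc (a := -3) (b := 3)) (fun t ht => ?_)
    rw [hat_zero (by rw [Set.mem_Icc, ← abs_le] at ht; linarith [not_le.1 ht]), ofReal_zero]
  · rw [d0_sum (fun k => (hat (t - k) : ℂ))]
    simp [hat_dil]
  · rintro ⟨ξ, h1, h2⟩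
    unfold symbol at h1 h2
    rw [d0_sum] at h1 h2
    have e : ∀ k : ℤ, Odd k → cexp (2 * Real.pi * I * k * (ξ + 1 / 2 : ℝ)) =
        -cexp (2 * Real.pi * I * k * ξ) := by
      intro k hk
      rw [show 2 * Real.pi * I * k * (ξ + 1 / 2 : ℝ) = 2 * Real.pi * I * k * ξ + k * (Real.pi * I) by
        push_cast; ring, Complex.exp_add, Complex.exp_int_mul, exp_pi_mul_I, hk.neg_one_zpow]
      ring
    rw [e (-3) (by decide), e 3 (by decide)] at h2
    simp only [Int.cast_zero, mul_zero, zero_mul, Complex.exp_zero] at h1 h2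
    have : (2 : ℂ) = 0 := by linear_combination h1 + h2
    norm_num at this
  · set w := cexp (2 * Real.pi * I / 3) with hw
    have hp : IsPrimitiveRoot w 3 := Complex.isPrimitiveRoot_exp 3 (by norm_num)
    have h3 : w ^ 3 = 1 := hp.pow_eq_one
    have hs : 1 + w + w ^ 2 = 0 := by
      simpa [Finset.sum_range_succ] using hp.geom_sum_eq_zero (by norm_num)
    have hw0 : w ≠ 0 := Complex.exp_ne_zero _
    have e : ∀ k : ℤ, cexp (2 * Real.pi * I * k * (1 / 3 : ℝ)) = w ^ k := fun k => by
      rw [hw, ← Complex.exp_int_mul]; congr 1; push_cast; ring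
    unfold zak
    simp only [e]
    rw [← (Equiv.subRight (⌊t⌋ + 3)).tsum_eq]
    have f0 := Int.fract_nonneg t
    have f1 := Int.fract_lt_one t
    have e2 : ∀ k : ℤ, t + ((Equiv.subRight (⌊t⌋ + 3) k : ℤ) : ℝ) = Int.fract t + k - 3 := by
      intro k; simp only [Equiv.subRight_apply, Int.fract]; push_cast; ring
    simp only [e2]
    simp only [Equiv.subRight_apply, zpow_sub₀ hw0]
    rw [tsum_eq_sum (s := {0, 1, 2, 3, 4, 5})]
    · have a := hat_pair (s := Int.fract t) f0 (by linarith)
      have b := hat_pair (s := Int.fract t + 1) (by linarith) (by linarith)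
      have c := hat_pair (s := Int.fract t + 2) (by linarith) (by linarith)
      have a' := congrArg (fun x : ℝ => (x : ℂ)) a
      have b' := congrArg (fun x : ℝ => (x : ℂ)) b
      have c' := congrArg (fun x : ℝ => (x : ℂ)) c
      simp only [ofReal_add, ofReal_ofNat] at a' b' c'
      rw [Finset.sum_insert (by decide), Finset.sum_insert (by decide),
        Finset.sum_insert (by decide), Finset.sum_insert (by decide),
        Finset.sum_insert (by decide), Finset.sum_singleton]
      simp only [Int.cast_zero, Int.cast_one, Int.cast_ofNat, add_zero, add_sub_cancel_right,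
        show Int.fract t + 4 - 3 = Int.fract t + 1 by ring,
        show Int.fract t + 5 - 3 = Int.fract t + 2 by ring, zpow_ofNat, ← mul_div_assoc, ← add_div]
      rw [div_eq_zero_iff]
      left
      linear_combination a' + w * b' + w ^ 2 * c' + 3 * hs + ((hat (Int.fract t) : ℂ) +
        w * hat (Int.fract t + 1) + w ^ 2 * hat (Int.fract t + 2)) * h3
    · intro k hk
      simp only [Finset.mem_insert, Finset.mem_singleton] at hk
      rw [hat_zero, ofReal_zero, zero_mul]
      rcases (show k ≤ -1 ∨ 6 ≤ k by omega) with h | h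
      · have : (k : ℝ) ≤ -1 := by exact_mod_cast h
        exact le_abs.2 (Or.inr (by linarith))
      · have : (6 : ℝ) ≤ k := by exact_mod_cast h
        exact le_abs.2 (Or.inl (by linarith))

end Pool.Agent.Results.MP_057a77_an.StretchedHat
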